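import Pool.Agent.TH293.APP.Main

set_option autoImplicit false

/-!
# `p`-adic strong four exponentials: additive pairs `x + (1 - x) = 1` of rational units

Let `L` be the Iwasawa logarithm.  If `x, y` are multiplicatively independent positive rational
numbers which are `p`-adic units, and `t` is transcendental, then a singular matrix with rows
`(L x, L y)` and `(t L x, t L y)` is a counterexample to the `p`-adic strong four exponentials
conjecture as soon as `t L x` and `t L y` are linear forms in `1` and logarithms of algebraic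
numbers.

We prove that for every transcendental `t` there is no such counterexample with `x + y = 1`, with at
most one exception, unless `{1/3, 2/3}` is an exception, in which case there are exactly three:
`{1/3, 2/3}`, `{1/4, 3/4}`, `{1/9, 8/9}`.  (The restriction `0 < x < 1/2` only fixes an order and
the positive representative in the orbit of `x` under `x ↦ 1 - x, 1 / x`.)

Proof.  The `p`-adic strong six exponentials theorem (the case `d = 2` of the `p`-adic hyperplane
theorem of Waldschmidt and Roy, proved in the starting files `Pool.Agent.W254.PA`) and the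
arithmetic of additive pairs in groups of rational numbers of rank two
(`Pool.Agent.TH293.AP.Core`, used for the complex analogue `MP_a4edf3_nt.AdditivePairs`).
-/

namespace Pool.Agent.Results.MP_dd0d16_nt.AdditivePairs

/-- `L` is the Iwasawa `p`-adic logarithm on the algebraic closure of `ℚ_p`. -/
def IsIwasawaLog (p : ℕ) [Fact p.Prime] (L : PadicAlgCl p → PadicAlgCl p) : Prop :=
  (∀ x y : PadicAlgCl p, x ≠ 0 → y ≠ 0 → L (x * y) = L x + L y) ∧
  L ((p : ℕ) : PadicAlgCl p) = 0 ∧
  ∀ z : PadicAlgCl p, ‖z‖ < 1 →
    HasSum (fun n : ℕ => (-1 : PadicAlgCl p) ^ n * z ^ (n + 1) / ((n : PadicAlgCl p) + 1))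
      (L (1 + z))

/-- The linear combinations, with algebraic coefficients, of `1` and of the values of `L` at nonzero
algebraic numbers. -/
noncomputable def LogForms (p : ℕ) [Fact p.Prime] (L : PadicAlgCl p → PadicAlgCl p) :
    Submodule (algebraicClosure ℚ (PadicAlgCl p)) (PadicAlgCl p) :=
  Submodule.span (algebraicClosure ℚ (PadicAlgCl p))
    ({1} ∪ {z | ∃ α : PadicAlgCl p, α ≠ 0 ∧ IsAlgebraic ℚ α ∧ z = L α})

/-- The rational `x` with `0 < x < 1/2` such that `x` and `1 - x` are `p`-adic units and `t L(x)` and
`t L(1 - x)` lie in `V`. -/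
def Pairs (p : ℕ) [Fact p.Prime] (L : PadicAlgCl p → PadicAlgCl p) (V : Set (PadicAlgCl p))
    (t : PadicAlgCl p) : Set ℚ :=
  {x : ℚ | 0 < x ∧ x < 1 / 2 ∧ padicValRat p x = 0 ∧ padicValRat p (1 - x) = 0 ∧
    t * L (x : PadicAlgCl p) ∈ V ∧ t * L ((1 - x : ℚ) : PadicAlgCl p) ∈ V}

/-- **Main result.**  `V` is any `ℚ`-subspace of the space of linear forms in logarithms, for
instance the space of all `r L(α)`, `r` rational, `α` algebraic. -/
theorem result (p : ℕ) [Fact p.Prime] (L : PadicAlgCl p → PadicAlgCl p) (hL : IsIwasawaLog p L)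
    (t : PadicAlgCl p) (ht : Transcendental ℚ t) (V : Submodule ℚ (PadicAlgCl p))
    (hV : ∀ z ∈ V, z ∈ LogForms p L) :
    (Pairs p L V t).Subsingleton ∨ Pairs p L V t = {1 / 3, 1 / 4, 1 / 9} :=
  Pool.Agent.TH293.APP.dichotomy ⟨hL.1, hL.2.1, hL.2.2⟩ ht V hV

end Pool.Agent.Results.MP_dd0d16_nt.AdditivePairs
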