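import Mathlib
import Pool.Agent.TH681.QC.Rate
import Pool.Agent.W245.PB.SubF
import Pool.Agent.W245.PB.PLog

/-!
# `p`-adic strong four exponentials: adjoining logarithms of integers, with few exceptions

Let `p` be a prime, `K` a field of algebraic numbers (for instance all of them) and `V` any
`K`-subspace of the algebraic closure of `ℚ_p` of dimension at most `m`.  For all but
`C x ^ k (log log x) ^ C / log x` of the `k`-tuples of integers between `1` and `x` the space
`V' = V + K log_p a_1 + ⋯ + K log_p a_k` has dimension `dim V + k`,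
and every `2 × 2` matrix with entries in `V'`, not all in `V`, with `K`-linearly independent rows and
`K`-linearly independent columns, has nonzero determinant.  The constant `C` depends only on
`m` and `k`, not on `p`, `K` and `V`.
-/

namespace Pool.Agent.Results.MP_dd0d16_nt.ExtensionsRate

open Module

/-- `L` is the Iwasawa `p`-adic logarithm on the algebraic closure of `ℚ_p`. -/
def IsIwasawaLog (p : ℕ) [Fact p.Prime] (L : PadicAlgCl p → PadicAlgCl p) : Prop :=
  (∀ x y : PadicAlgCl p, x ≠ 0 → y ≠ 0 → L (x * y) = L x + L y) ∧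
  L ((p : ℕ) : PadicAlgCl p) = 0 ∧
  ∀ z : PadicAlgCl p, ‖z‖ < 1 →
    HasSum (fun n : ℕ => (-1 : PadicAlgCl p) ^ n * z ^ (n + 1) / ((n : PadicAlgCl p) + 1))
      (L (1 + z))

open Classical in
/-- **Main result.** -/
theorem result (m k : ℕ) :
    ∃ C : ℕ, ∀ x : ℕ, 16 ≤ x → ∀ (p : ℕ) [Fact p.Prime] (L : PadicAlgCl p → PadicAlgCl p),
      IsIwasawaLog p L →
      ∀ K : IntermediateField ℚ (PadicAlgCl p), K ≤ algebraicClosure ℚ (PadicAlgCl p) →
      ∀ V : Submodule K (PadicAlgCl p), Module.Finite K V → finrank K V ≤ m →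
      (((Fintype.piFinset fun _ : Fin k => Finset.Icc 1 x).filter fun a =>
        ¬ (finrank K (V ⊔ Submodule.span K (Set.range fun i => L (a i : PadicAlgCl p)) :
            Submodule K (PadicAlgCl p)) = finrank K V + k ∧
          ∀ M : Matrix (Fin 2) (Fin 2) (PadicAlgCl p),
            (∀ i j, M i j ∈
              V ⊔ Submodule.span K (Set.range fun i => L (a i : PadicAlgCl p))) →
            (∃ i j, M i j ∉ V) →
            LinearIndependent K (fun i : Fin 2 => fun j : Fin 2 => M i j) →
            LinearIndependent K (fun j : Fin 2 => fun i : Fin 2 => M i j) →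
            M.det ≠ 0)).card : ℝ) ≤
        C * Real.log (Real.log x) ^ C / Real.log x * (x : ℝ) ^ k := by
  obtain ⟨C, hC⟩ := Pool.Agent.TH681.QC.rate_sub k m
  refine ⟨C, fun x hx p _ L hL K hK V hVf hVm => ?_⟩
  have hL' : Pool.Agent.W245.PB.IsIwasawaLog p L := ⟨hL.1, hL.2.1, hL.2.2⟩
  apply hC x hx (PadicAlgCl p) (fun n : ℕ => L (n : PadicAlgCl p)) hL'.logLike K hK V hVf hVm
  · intro a ha
    exact (Finset.mem_filter.1 ha).1
  · intro a ha hgood
    apply (Finset.mem_filter.1 ha).2
    exact ⟨hgood.2, fun M hM hV hrow hcol => hgood.1.det_ne_zero M hM hrow hcol hV⟩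

end Pool.Agent.Results.MP_dd0d16_nt.ExtensionsRate
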