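import Pool.Agent.TH160.TowP.PFull

/-!
# `p`-adic strong four exponentials: the values `∑ n^{c_i} B_i(log n)`

Let `𝓛` be the space of the linear combinations, with algebraic coefficients, of `1` and of values of
the Iwasawa logarithm at algebraic numbers.  The conjecture says that a singular `2 × 2` matrix with
rows and columns linearly independent over the algebraic numbers has an entry outside `𝓛`; a singular
matrix is `(x_i y_j)`, so one asks when a product `x y` lies in `𝓛`.

Let `c_1, ..., c_m` be distinct elements of the algebraic closure of `ℚ_p`, let `χ_i` be a completely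
multiplicative function with `log χ_i(n) = c_i log n` (a `p`-adic analogue of `n ↦ n^{c_i}`), and let
`B_1, ..., B_m` be any polynomials of degree `< D` over the algebraic closure of `ℚ_p`.  We prove that
the numbers `F(n) = ∑ χ_i(n) B_i(log n)` either all lie in `𝓛`, or at most
`C N (log log N)^C / log N` of the first `N` of them do, where `C` depends only on `m` and `D`; and
the first case only occurs in the trivial case: `B_i = 0` when `c_i` is irrational, and
`B_i = a_i + b_i X` with `a_i ∈ 𝓛` and algebraic `b_i` when `c_i` is rational.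

For instance the products `κ (b + s log n) χ(n)` of an additive and a multiplicative function.

The proof uses the `p`-adic hyperplane theorem of Waldschmidt and Roy (proved in the starting files
`Pool.Agent.W254.PA`), multiplicative cubes in large sets of integers (`Pool.Agent.TH681.QC`), and
derivations.
-/

set_option autoImplicit false

namespace Pool.Agent.Results.MP_dd0d16_nt.GeneralizedPolynomials

open Polynomial

/-- `L` is the Iwasawa `p`-adic logarithm on the algebraic closure of `ℚ_p`. -/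
def IsIwasawaLog (p : ℕ) [Fact p.Prime] (L : PadicAlgCl p → PadicAlgCl p) : Prop :=
  (∀ x y : PadicAlgCl p, x ≠ 0 → y ≠ 0 → L (x * y) = L x + L y) ∧
  L ((p : ℕ) : PadicAlgCl p) = 0 ∧
  ∀ z : PadicAlgCl p, ‖z‖ < 1 →
    HasSum (fun n : ℕ => (-1 : PadicAlgCl p) ^ n * z ^ (n + 1) / ((n : PadicAlgCl p) + 1))
      (L (1 + z))

/-- The linear combinations, with algebraic coefficients, of `1` and of the values of `L` at nonzero
algebraic numbers. -/
noncomputable def LogForms (p : ℕ) [Fact p.Prime] (L : PadicAlgCl p → PadicAlgCl p) :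
    Submodule (algebraicClosure ℚ (PadicAlgCl p)) (PadicAlgCl p) :=
  Submodule.span (algebraicClosure ℚ (PadicAlgCl p))
    ({1} ∪ {z | ∃ α : PadicAlgCl p, α ≠ 0 ∧ IsAlgebraic ℚ α ∧ z = L α})

/-- `χ` is a completely multiplicative function on the positive integers, with nonzero values and
`log χ(n) = c log n`: a `p`-adic analogue of `n ↦ n^c`. -/
def IsPower {p : ℕ} [Fact p.Prime] (L : PadicAlgCl p → PadicAlgCl p) (c : PadicAlgCl p)
    (χ : ℕ → PadicAlgCl p) : Prop :=
  ∀ n : ℕ, 0 < n → χ n ≠ 0 ∧ L (χ n) = c * L (n : PadicAlgCl p) ∧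
    ∀ k : ℕ, 0 < k → χ (k * n) = χ k * χ n

/-- The trivial case: `B_i = 0` if `c_i` is irrational, and `B_i = a + b X` with `a` in `LogForms`
and `b` algebraic if `c_i` is rational. -/
def Trivial {p : ℕ} [Fact p.Prime] (L : PadicAlgCl p → PadicAlgCl p) {m : ℕ}
    (c : Fin m → PadicAlgCl p) (B : Fin m → (PadicAlgCl p)[X]) : Prop :=
  ∀ i, (¬ (∃ r : ℚ, c i = r) → B i = 0) ∧
    ((∃ r : ℚ, c i = r) → (B i).coeff 0 ∈ LogForms p L ∧ IsAlgebraic ℚ ((B i).coeff 1) ∧
      ∀ k, 2 ≤ k → (B i).coeff k = 0)

open Classical in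
/-- **Main result.** -/
theorem result (m D : ℕ) : ∃ C : ℕ, ∀ (p : ℕ) [Fact p.Prime] (L : PadicAlgCl p → PadicAlgCl p),
    IsIwasawaLog p L → ∀ c : Fin m → PadicAlgCl p, Function.Injective c →
    ∀ χ : Fin m → ℕ → PadicAlgCl p, (∀ i, IsPower L (c i) (χ i)) →
    ∀ B : Fin m → (PadicAlgCl p)[X], (∀ i, (B i).degree < D) →
      (Trivial L c B → ∀ n : ℕ, 0 < n →
        ∑ i, χ i n * (B i).eval (L (n : PadicAlgCl p)) ∈ LogForms p L) ∧
      (¬ Trivial L c B → ∀ N : ℕ, 16 ≤ N →
        (((Finset.Icc 1 N).filter fun n : ℕ =>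
          ∑ i, χ i n * (B i).eval (L (n : PadicAlgCl p)) ∈ LogForms p L).card : ℝ) ≤
        C * Real.log (Real.log N) ^ C / Real.log N * N) := by
  obtain ⟨C, hC⟩ := Pool.Agent.TH160.TowP.full_padic m D
  refine ⟨C, ?_⟩
  intro p _ L hL c hc χ hχ B hB
  have hL' : Pool.Agent.W245.PB.IsIwasawaLog p L := ⟨hL.1, hL.2.1, hL.2.2⟩
  have hZ : ∀ i, Pool.Agent.TH160.TowP.Z D (B i) := by
    intro i k hk
    apply coeff_eq_zero_of_degree_lt
    refine lt_of_lt_of_le (hB i) ?_
    exact_mod_cast hk
  constructor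
  · intro htr n hn
    apply Submodule.sum_mem
    intro i _
    have hn0 : (n : PadicAlgCl p) ≠ 0 := by exact_mod_cast hn.ne'
    by_cases hr : ∃ r : ℚ, c i = r
    · have h1 := (htr i).2 hr
      obtain ⟨r, hr'⟩ := hr
      have hlog : L (n : PadicAlgCl p) ∈ LogForms p L :=
        Submodule.subset_span (Or.inr ⟨n, hn0, isAlgebraic_natCast n, rfl⟩)
      have h2 := Pool.Agent.TH160.TowP.eval_good (V := LogForms p L) h1 hlog
      have h3 := Pool.Agent.TH160.TowP.pow_alg hL' hn (hχ i n hn).1 r
        (by rw [(hχ i n hn).2.1, hr'])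
      exact Pool.Agent.TH160.TowP.V_mul h3 h2
    · rw [(htr i).1 hr, eval_zero, mul_zero]
      exact Submodule.zero_mem _
  · intro hnt N hN
    refine hC N hN p L hL' c hc χ (fun i k n hk hn => (hχ i n hn).2.2 k hk)
      (fun i n hn => (hχ i n hn).1) (fun i n hn => (hχ i n hn).2.1) B hZ ?_
    intro h
    exact hnt (fun i => ⟨(h i).2, (h i).1⟩)

end Pool.Agent.Results.MP_dd0d16_nt.GeneralizedPolynomials
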