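import Pool.Agent.W254.PA.App
import Pool.Agent.TH21.PA.Ratio

/-!
# `p`-adic strong four exponentials: matrices whose columns have a rational function as quotient

Let `𝓛` be the space of the linear combinations, with algebraic coefficients, of `1` and of values of
the Iwasawa logarithm at algebraic numbers. The conjecture says that there is no singular `2 × 2`
matrix with entries in `𝓛` and with rows and columns linearly independent over the algebraic
numbers. Let `t_1, ..., t_n` be arbitrary elements of the algebraic closure of `ℚ_p`. We prove that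
there is one subspace `W` of `𝓛`, of dimension at most `2 ((4D)^n - 2^n)` over the algebraic numbers,
which contains all the entries of all the counterexamples in which the quotient of the two columns
(or of the two rows) is the quotient of two polynomials in `t_1, ..., t_n` with algebraic coefficients
and of degree at most `D` in each variable. For `n = D = 1`, i.e. for the quotients
`(a t + b) / (c t + d)` with algebraic `a, b, c, d`, the bound is `4`.

The proof is based on the `p`-adic hyperplane case of the linear subgroup theorem of Waldschmidt and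
Roy (proved in the starting files `Pool.Agent.W254.PA`).
-/

set_option autoImplicit false

namespace Pool.Agent.Results.MP_dd0d16_nt.RationalRatios

open Module MvPolynomial

/-- `L` is the Iwasawa `p`-adic logarithm on the algebraic closure of `ℚ_p`. -/
def IsIwasawaLog (p : ℕ) [Fact p.Prime] (L : PadicAlgCl p → PadicAlgCl p) : Prop :=
  (∀ x y : PadicAlgCl p, x ≠ 0 → y ≠ 0 → L (x * y) = L x + L y) ∧
  L ((p : ℕ) : PadicAlgCl p) = 0 ∧
  ∀ z : PadicAlgCl p, ‖z‖ < 1 →
    HasSum (fun n : ℕ => (-1 : PadicAlgCl p) ^ n * z ^ (n + 1) / ((n : PadicAlgCl p) + 1))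
      (L (1 + z))

/-- The algebraic numbers in the algebraic closure of `ℚ_p`. -/
noncomputable abbrev Qb (p : ℕ) [Fact p.Prime] : IntermediateField ℚ (PadicAlgCl p) :=
  algebraicClosure ℚ (PadicAlgCl p)

/-- The linear combinations with algebraic coefficients of `1` and of the values of `L` at nonzero
algebraic numbers. -/
noncomputable def LogForms (p : ℕ) [Fact p.Prime] (L : PadicAlgCl p → PadicAlgCl p) :
    Submodule (Qb p) (PadicAlgCl p) :=
  Submodule.span (Qb p) ({1} ∪ {z | ∃ α : PadicAlgCl p, α ≠ 0 ∧ IsAlgebraic ℚ α ∧ z = L α})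

/-- `M` is a counterexample to the `p`-adic strong four exponentials conjecture. -/
def Counterexample (p : ℕ) [Fact p.Prime] (L : PadicAlgCl p → PadicAlgCl p)
    (M : Matrix (Fin 2) (Fin 2) (PadicAlgCl p)) : Prop :=
  (∀ i j, M i j ∈ LogForms p L) ∧
  LinearIndependent (Qb p) (fun i : Fin 2 => fun j : Fin 2 => M i j) ∧
  LinearIndependent (Qb p) (fun j : Fin 2 => fun i : Fin 2 => M i j) ∧
  M.det = 0

/-- Two elements in a row, or two elements in a column of `M` are proportional to `B(t)`, `A(t)` for
polynomials `A`, `B` of degree at most `D` in each variable, with algebraic coefficients, which do not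
both vanish at `t`. -/
def RatioOf {p : ℕ} [Fact p.Prime] {n : ℕ} (t : Fin n → PadicAlgCl p) (D : ℕ)
    (M : Matrix (Fin 2) (Fin 2) (PadicAlgCl p)) : Prop :=
  ∃ A B : MvPolynomial (Fin n) (Qb p), (∀ d ∈ A.support, ∀ j, d j ≤ D) ∧
    (∀ d ∈ B.support, ∀ j, d j ≤ D) ∧ (aeval t A ≠ 0 ∨ aeval t B ≠ 0) ∧
    ((∃ i, aeval t A * M i 0 = aeval t B * M i 1) ∨
      ∃ j, aeval t A * M 0 j = aeval t B * M 1 j)

/-- **Main result.** For all `t_1, ..., t_n` and `D` there is a space `W` of linear forms in
logarithms of dimension at most `2 ((4D)^n - 2^n)` which contains all entries of all counterexamples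
whose columns (or rows) have as quotient the quotient of two polynomials in `t_1, ..., t_n` of degree
at most `D` in each variable. -/
theorem result (p : ℕ) [Fact p.Prime] (L : PadicAlgCl p → PadicAlgCl p) (hL : IsIwasawaLog p L)
    (n D : ℕ) (t : Fin n → PadicAlgCl p) :
    ∃ W : Submodule (Qb p) (PadicAlgCl p), W ≤ LogForms p L ∧ Module.Finite (Qb p) W ∧
      finrank (Qb p) W ≤ 2 * ((4 * D) ^ n - 2 ^ n) ∧
      ∀ M : Matrix (Fin 2) (Fin 2) (PadicAlgCl p), Counterexample p L M → RatioOf t D M →
        ∀ i j, M i j ∈ W := by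
  have hL' : Pool.Agent.W245.PB.IsIwasawaLog p L := ⟨hL.1, hL.2.1, hL.2.2⟩
  obtain ⟨W, h1, h2, h3, h4⟩ := Pool.Agent.TH21.PA.entries
    (Pool.Agent.W254.PA.hyp_padic hL') t D
  exact ⟨W, h1, h2, h3, fun M hM hr => h4 M hM.1 hM.2.1 hM.2.2.1 hM.2.2.2 hr⟩

end Pool.Agent.Results.MP_dd0d16_nt.RationalRatios
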